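import Mathlib

/-!
The finite-dimensional space of polynomial functions of bounded degree in the entries of
finitely many matrices.
-/

namespace Pool.Agent.Helper8

open Module Matrix
open scoped Pointwise

variable {K : Type*} [Field K] {w : ℕ}

/-- coordinates of the first `t` matrices, and the constant function -/
noncomputable def coordSet (K : Type*) [Field K] (w t : ℕ) :
    Finset ((ℕ → Matrix (Fin w) (Fin w) K) → K) := by
  classical
  exact insert 1 ((Finset.univ : Finset (Fin t × Fin w × Fin w)).image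
    (fun p => fun C => C p.1 p.2.1 p.2.2))

theorem card_coordSet (t : ℕ) : (coordSet K w t).card ≤ t * (w * w) + 1 := by
  classical
  unfold coordSet
  refine (Finset.card_insert_le _ _).trans ?_
  have := Finset.card_image_le (s := (Finset.univ : Finset (Fin t × Fin w × Fin w)))
    (f := fun p => fun C : (ℕ → Matrix (Fin w) (Fin w) K) => C p.1 p.2.1 p.2.2)
  simp only [Finset.card_univ, Fintype.card_prod, Fintype.card_fin] at this
  omega

/-- affine functions of the entries of the first `t` matrices -/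
noncomputable def Aff (K : Type*) [Field K] (w t : ℕ) :
    Submodule K ((ℕ → Matrix (Fin w) (Fin w) K) → K) :=
  Submodule.span K (coordSet K w t : Set ((ℕ → Matrix (Fin w) (Fin w) K) → K))

theorem Aff_pow_eq (t D : ℕ) [DecidableEq ((ℕ → Matrix (Fin w) (Fin w) K) → K)] :
    (Aff K w t) ^ D = Submodule.span K
      ((coordSet K w t ^ D : Finset ((ℕ → Matrix (Fin w) (Fin w) K) → K)) :
        Set ((ℕ → Matrix (Fin w) (Fin w) K) → K)) := by
  unfold Aff
  rw [Submodule.span_pow, Finset.coe_pow]

theorem finrank_Aff_pow (t D : ℕ) :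
    finrank K ((Aff K w t) ^ D : Submodule K ((ℕ → Matrix (Fin w) (Fin w) K) → K)) ≤
      (t * (w * w) + 1) ^ D := by
  classical
  rw [Aff_pow_eq]
  refine (finrank_span_finset_le_card _).trans ?_
  refine Finset.card_pow_le.trans ?_
  exact Nat.pow_le_pow_left (card_coordSet t) D

instance finite_Aff_pow (t D : ℕ) : FiniteDimensional K
    ((Aff K w t) ^ D : Submodule K ((ℕ → Matrix (Fin w) (Fin w) K) → K)) := by
  classical
  rw [Aff_pow_eq]
  exact FiniteDimensional.span_finset K _

theorem one_mem_Aff (t : ℕ) : (1 : (ℕ → Matrix (Fin w) (Fin w) K) → K) ∈ Aff K w t := by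
  classical
  apply Submodule.subset_span
  unfold coordSet
  simp

theorem coord_mem_Aff {t c : ℕ} (hc : c < t) (i j : Fin w) :
    (fun C : (ℕ → Matrix (Fin w) (Fin w) K) => C c i j) ∈ Aff K w t := by
  classical
  apply Submodule.subset_span
  unfold coordSet
  simp only [Finset.coe_insert, Finset.coe_image, Finset.coe_univ, Set.image_univ,
    Set.mem_insert_iff, Set.mem_range]
  right
  exact ⟨(⟨c, hc⟩, i, j), rfl⟩

theorem Aff_pow_mono (t : ℕ) {D D' : ℕ} (h : D ≤ D') : (Aff K w t) ^ D ≤ (Aff K w t) ^ D' := by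
  apply pow_le_pow_right' _ h
  rw [Submodule.one_le]
  exact one_mem_Aff t

theorem const_mem (t D : ℕ) (a : K) :
    (fun _ : (ℕ → Matrix (Fin w) (Fin w) K) => a) ∈ (Aff K w t) ^ D := by
  apply Aff_pow_mono t (Nat.zero_le D)
  rw [pow_zero, Submodule.mem_one]
  exact ⟨a, rfl⟩

theorem prod_mem_pow {A : Type*} [CommRing A] [Algebra K A] (V : Submodule K A) {ι : Type*}
    (s : Finset ι) (f : ι → A) (h : ∀ i ∈ s, f i ∈ V) : ∏ i ∈ s, f i ∈ V ^ s.card := by
  classical
  induction s using Finset.induction_on with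
  | empty =>
    rw [Finset.prod_empty, Finset.card_empty, pow_zero]
    exact Submodule.one_le.mp le_rfl
  | insert a s ha ih =>
    rw [Finset.prod_insert ha, Finset.card_insert_of_notMem ha, pow_succ']
    exact Submodule.mul_mem_mul (h a (by simp)) (ih (fun i hi => h i (by simp [hi])))

/-- matrix valued functions with entries of degree at most `D` -/
def Pol (t D : ℕ) {m n : ℕ} (F : (ℕ → Matrix (Fin w) (Fin w) K) → Matrix (Fin m) (Fin n) K) :
    Prop := ∀ i j, (fun C => F C i j) ∈ (Aff K w t) ^ D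

theorem Pol.const (t D : ℕ) {m n : ℕ} (A : Matrix (Fin m) (Fin n) K) :
    Pol (w := w) t D (fun _ => A) := fun i j => const_mem t D (A i j)

theorem Pol.mul {t D D' : ℕ} {m n p : ℕ}
    {F : (ℕ → Matrix (Fin w) (Fin w) K) → Matrix (Fin m) (Fin n) K}
    {G : (ℕ → Matrix (Fin w) (Fin w) K) → Matrix (Fin n) (Fin p) K}
    (hF : Pol t D F) (hG : Pol t D' G) : Pol t (D + D') (fun C => F C * G C) := by
  intro i j
  have : (fun C => (F C * G C) i j) = ∑ l, (fun C => F C i l) * (fun C => G C l j) := by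
    funext C
    simp [Matrix.mul_apply]
  rw [this, pow_add]
  exact Submodule.sum_mem _ (fun l _ => Submodule.mul_mem_mul (hF i l) (hG l j))

theorem Pol.transpose {t D : ℕ} {m n : ℕ}
    {F : (ℕ → Matrix (Fin w) (Fin w) K) → Matrix (Fin m) (Fin n) K}
    (hF : Pol t D F) : Pol t D (fun C => (F C)ᵀ) := fun i j => hF j i

theorem Pol.mono {t D D' : ℕ} (h : D ≤ D') {m n : ℕ}
    {F : (ℕ → Matrix (Fin w) (Fin w) K) → Matrix (Fin m) (Fin n) K}
    (hF : Pol t D F) : Pol t D' F := fun i j => Aff_pow_mono t h (hF i j)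

/-- left translate of a coordinate matrix -/
theorem Pol.coord {t c : ℕ} (hc : c < t) (L : ℕ → Matrix (Fin w) (Fin w) K) :
    Pol t 1 (fun C : (ℕ → Matrix (Fin w) (Fin w) K) => (L * C) c) := by
  intro i j
  have : (fun C : (ℕ → Matrix (Fin w) (Fin w) K) => (L * C) c i j) = ∑ l, L c i l • (fun C : (ℕ → Matrix (Fin w) (Fin w) K) =>
      C c l j) := by
    funext C
    simp [Matrix.mul_apply]
  rw [this, pow_one]
  exact Submodule.sum_mem _ (fun l _ => Submodule.smul_mem _ _ (coord_mem_Aff hc l j))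

theorem Pol.det {t D : ℕ} {m : ℕ}
    {F : (ℕ → Matrix (Fin w) (Fin w) K) → Matrix (Fin m) (Fin m) K}
    (hF : Pol t D F) : (fun C => (F C).det) ∈ (Aff K w t) ^ (D * m) := by
  have : (fun C => (F C).det) = ∑ σ : Equiv.Perm (Fin m), ((Equiv.Perm.sign σ : ℤ) : K) •
      ∏ i, (fun C => F C (σ i) i) := by
    funext C
    simp [Matrix.det_apply, Units.smul_def, zsmul_eq_mul]
  rw [this, pow_mul]
  refine Submodule.sum_mem _ (fun σ _ => Submodule.smul_mem _ _ ?_)
  have h := prod_mem_pow ((Aff K w t) ^ D) (Finset.univ : Finset (Fin m))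
    (fun i => (fun C => F C (σ i) i)) (fun i _ => hF (σ i) i)
  simpa using h

end Pool.Agent.Helper8
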