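import Mathlib

/-!
Combinatorics of words in which every letter occurs at most `k` times: many letters contain a
large subset of letters which are read monotonically on the pieces of a tiling.
-/

namespace Pool.Agent.Helper8

/-- Chains and antichains of a transitive relation. -/
theorem ramsey2 (R : ℕ → ℕ → Prop) (b : ℕ) : ∀ (a : ℕ) (A : Finset ℕ), a * b ≤ A.card →
    (∀ i ∈ A, ∀ j ∈ A, ∀ l ∈ A, i < j → j < l → R i j → R j l → R i l) →
    (∃ B ⊆ A, a ≤ B.card ∧ ∀ i ∈ B, ∀ j ∈ B, i < j → R i j) ∨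
    (∃ B ⊆ A, b ≤ B.card ∧ ∀ i ∈ B, ∀ j ∈ B, i < j → ¬ R i j) := by
  classical
  intro a
  induction a with
  | zero =>
    intro A _ _
    left
    exact ⟨∅, by simp, by simp, by simp⟩
  | succ a ih =>
    intro A hA htr
    set A0 := A.filter (fun l => ∀ i ∈ A, i < l → ¬ R i l) with hA0
    set A1 := A.filter (fun l => ¬ ∀ i ∈ A, i < l → ¬ R i l) with hA1
    have hcard : A0.card + A1.card = A.card := by
      rw [hA0, hA1, Finset.card_filter_add_card_filter_not]
    by_cases hb : b ≤ A0.card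
    · right
      refine ⟨A0, Finset.filter_subset _ _, hb, ?_⟩
      intro i hi j hj hij
      rw [hA0, Finset.mem_filter] at hi hj
      exact hj.2 i hi.1 hij
    have h1 : a * b ≤ A1.card := by
      have : (a + 1) * b = a * b + b := by ring
      omega
    have hA1A : A1 ⊆ A := Finset.filter_subset _ _
    rcases ih A1 h1 (fun i hi j hj l hl => htr i (hA1A hi) j (hA1A hj) l (hA1A hl)) with
      ⟨B, hB, hBc, hBR⟩ | ⟨B, hB, hBc, hBR⟩
    · left
      rcases B.eq_empty_or_nonempty with h0 | hne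
      · subst h0
        have ha : a = 0 := by simpa using hBc
        subst ha
        rcases A.eq_empty_or_nonempty with h0 | ⟨x, hx⟩
        · exfalso
          subst h0
          have h2 : b ≤ 0 := by simpa using hA
          exact hb (h2.trans (Nat.zero_le _))
        · refine ⟨{x}, by simpa using hx, by simp, ?_⟩
          intro i hi j hj hij
          rw [Finset.mem_singleton] at hi hj
          omega
      · set x := B.min' hne with hx
        have hxB : x ∈ B := B.min'_mem hne
        have hx1 := hB hxB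
        rw [hA1, Finset.mem_filter] at hx1
        obtain ⟨hxA, hx2⟩ := hx1
        push Not at hx2
        obtain ⟨y, hyA, hyx, hRyx⟩ := hx2
        have hy : ∀ l ∈ B, y < l := fun l hl => lt_of_lt_of_le hyx (B.min'_le l hl)
        have hyB : y ∉ B := fun h => lt_irrefl _ (hy y h)
        refine ⟨insert y B, ?_, ?_, ?_⟩
        · intro i hi
          rw [Finset.mem_insert] at hi
          rcases hi with rfl | hi
          · exact hyA
          · exact hA1A (hB hi)
        · rw [Finset.card_insert_of_notMem hyB]; omega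
        · intro i hi j hj hij
          rw [Finset.mem_insert] at hi hj
          rcases hi with rfl | hi
          · rcases hj with rfl | hj
            · exact absurd hij (lt_irrefl _)
            · rcases (B.min'_le j hj).eq_or_lt with h | h
              · rw [← h]; exact hRyx
              · exact htr i hyA x hxA j (hA1A (hB hj)) hyx h hRyx (hBR x hxB j hj h)
          · rcases hj with rfl | hj
            · exact absurd (hy i hi) (by omega)
            · exact hBR i hi j hj hij
    · right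
      exact ⟨B, hB.trans hA1A, hBc, hBR⟩

variable {ι : Type*}

/-- The letters `s l`, `l ∈ B`, are read monotonically in the interval `[c,d)`. -/
def Pass (ν s : ℕ → ι) (B : Finset ℕ) (c d : ℕ) (dir : Bool) (x : ℕ → ℕ) : Prop :=
  (∀ l, c ≤ x l ∧ x l ≤ d) ∧
  (dir = true → Monotone x ∧
    ∀ j, c ≤ j → j < d → ∀ l ∈ B, ν j = s l → x l ≤ j ∧ j < x (l + 1)) ∧
  (dir = false → Antitone x ∧
    ∀ j, c ≤ j → j < d → ∀ l ∈ B, ν j = s l → x (l + 1) ≤ j ∧ j < x l)

theorem Pass.mono {ν s : ℕ → ι} {B B' : Finset ℕ} {c d : ℕ} {dir : Bool} {x : ℕ → ℕ}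
    (h : Pass ν s B c d dir x) (hB : B' ⊆ B) : Pass ν s B' c d dir x := by
  refine ⟨h.1, fun hd => ⟨(h.2.1 hd).1, fun j h1 h2 l hl => (h.2.1 hd).2 j h1 h2 l (hB hl)⟩,
    fun hd => ⟨(h.2.2 hd).1, fun j h1 h2 l hl => (h.2.2 hd).2 j h1 h2 l (hB hl)⟩⟩

/-- Passing to a subsequence of letters. -/
theorem Pass.comp {ν s : ℕ → ι} {B : Finset ℕ} {c d : ℕ} {dir : Bool} {x : ℕ → ℕ}
    (h : Pass ν s B c d dir x) {σ : ℕ → ℕ} (hσ : StrictMono σ) {B' : Finset ℕ}
    (hB : ∀ l ∈ B', σ l ∈ B) : Pass ν (s ∘ σ) B' c d dir (x ∘ σ) := by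
  refine ⟨fun l => h.1 _, fun hd => ⟨(h.2.1 hd).1.comp hσ.monotone, ?_⟩,
    fun hd => ⟨(h.2.2 hd).1.comp_monotone hσ.monotone, ?_⟩⟩
  · intro j h1 h2 l hl hj
    obtain ⟨h3, h4⟩ := (h.2.1 hd).2 j h1 h2 (σ l) (hB l hl) hj
    refine ⟨h3, lt_of_lt_of_le h4 ?_⟩
    exact (h.2.1 hd).1 (hσ (Nat.lt_succ_self l))
  · intro j h1 h2 l hl hj
    obtain ⟨h3, h4⟩ := (h.2.2 hd).2 j h1 h2 (σ l) (hB l hl) hj
    refine ⟨le_trans ?_ h3, h4⟩
    exact (h.2.2 hd).1 (hσ (Nat.lt_succ_self l))

/-- A tiling of `[a,b)` by `t` intervals on each of which the letters are read monotonically. -/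
def Tiling (ν s : ℕ → ι) (B : Finset ℕ) (a b t : ℕ) : Prop :=
  ∃ (e : ℕ → ℕ) (x : ℕ → ℕ → ℕ) (dir : ℕ → Bool), e 0 = a ∧ e t = b ∧
    (∀ c < t, e c ≤ e (c + 1)) ∧ ∀ c < t, Pass ν s B (e c) (e (c + 1)) (dir c) (x c)

theorem Tiling.mono {ν s : ℕ → ι} {B B' : Finset ℕ} {a b t : ℕ}
    (h : Tiling ν s B a b t) (hB : B' ⊆ B) : Tiling ν s B' a b t := by
  obtain ⟨e, x, dir, h0, ht, he, hp⟩ := h
  exact ⟨e, x, dir, h0, ht, he, fun c hc => (hp c hc).mono hB⟩

theorem Tiling.comp {ν s : ℕ → ι} {B : Finset ℕ} {a b t : ℕ}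
    (h : Tiling ν s B a b t) {σ : ℕ → ℕ} (hσ : StrictMono σ) {B' : Finset ℕ}
    (hB : ∀ l ∈ B', σ l ∈ B) : Tiling ν (s ∘ σ) B' a b t := by
  obtain ⟨e, x, dir, h0, ht, he, hp⟩ := h
  exact ⟨e, fun c => x c ∘ σ, dir, h0, ht, he, fun c hc => (hp c hc).comp hσ hB⟩

theorem Tiling.single {ν s : ℕ → ι} {B : Finset ℕ} {a b : ℕ} (hab : a ≤ b) (dir : Bool)
    (x : ℕ → ℕ) (h : Pass ν s B a b dir x) : Tiling ν s B a b 1 := by
  refine ⟨fun c => if c = 0 then a else b, fun _ => x, fun _ => dir, by simp, by simp, ?_, ?_⟩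
  · intro c hc
    have : c = 0 := by omega
    subst this
    simpa using hab
  · intro c hc
    have : c = 0 := by omega
    subst this
    simpa using h

theorem Tiling.append {ν s : ℕ → ι} {B : Finset ℕ} {a z b t t' : ℕ}
    (h : Tiling ν s B a z t) (h' : Tiling ν s B z b t') : Tiling ν s B a b (t + t') := by
  obtain ⟨e, x, dir, h0, ht, he, hp⟩ := h
  obtain ⟨e', x', dir', h0', ht', he', hp'⟩ := h'
  refine ⟨fun c => if c < t then e c else e' (c - t), fun c => if c < t then x c else x' (c - t),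
    fun c => if c < t then dir c else dir' (c - t), ?_, ?_, ?_, ?_⟩
  · by_cases h : 0 < t
    · simp [h, h0]
    · have : t = 0 := by omega
      subst this
      simp only [lt_irrefl, if_false, Nat.sub_zero]
      rw [h0', ← ht, h0]
  · simp [ht']
  · intro c hc
    by_cases h1 : c + 1 < t
    · have h2 : c < t := by omega
      simp only [h1, h2, if_true]
      exact he c h2
    · by_cases h2 : c < t
      · have h3 : c + 1 = t := by omega
        simp only [h3, h2, if_true, lt_irrefl, if_false, Nat.sub_self]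
        rw [h0', ← ht, ← h3]
        exact he c h2
      · simp only [h1, h2, if_false]
        have : c + 1 - t = c - t + 1 := by omega
        rw [this]
        exact he' _ (by omega)
  · intro c hc
    by_cases h1 : c + 1 < t
    · have h2 : c < t := by omega
      simp only [h1, h2, if_true]
      exact hp c h2
    · by_cases h2 : c < t
      · have h3 : c + 1 = t := by omega
        have h4 := hp c h2
        rw [h3, ht] at h4
        simp only [h3, h2, if_true, lt_irrefl, if_false, Nat.sub_self]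
        rw [h0']
        exact h4
      · simp only [h1, h2, if_false]
        have : c + 1 - t = c - t + 1 := by omega
        rw [this]
        exact hp' _ (by omega)


/-- increasing pass from ordered disjoint ranges -/
theorem pass_inc {ν s : ℕ → ι} {B : Finset ℕ} {c d : ℕ} (hcd : c ≤ d) (f g : ℕ → ℕ)
    (_hf : ∀ l ∈ B, c ≤ f l) (hg : ∀ l ∈ B, g l < d)
    (hocc : ∀ l ∈ B, ∀ j, c ≤ j → j < d → ν j = s l → f l ≤ j ∧ j ≤ g l)
    (hR : ∀ i ∈ B, ∀ j ∈ B, i < j → g i < f j) :
    ∃ x, Pass ν s B c d true x := by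
  classical
  refine ⟨fun l => max c ((B.filter (fun i => i < l)).sup (fun i => g i + 1)), ?_, ?_, ?_⟩
  · intro l
    refine ⟨le_max_left _ _, max_le hcd ?_⟩
    apply Finset.sup_le
    intro i hi
    rw [Finset.mem_filter] at hi
    have := hg i hi.1
    omega
  · intro _
    refine ⟨?_, ?_⟩
    · intro l l' hl
      apply max_le_max le_rfl
      apply Finset.sup_mono
      intro i hi
      rw [Finset.mem_filter] at hi ⊢
      exact ⟨hi.1, lt_of_lt_of_le hi.2 hl⟩
    · intro j h1 h2 l hl hj
      obtain ⟨h3, h4⟩ := hocc l hl j h1 h2 hj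
      constructor
      · apply max_le h1
        apply Finset.sup_le
        intro i hi
        rw [Finset.mem_filter] at hi
        have := hR i hi.1 l hl hi.2
        omega
      · have : g l + 1 ≤ (B.filter (fun i => i < l + 1)).sup (fun i => g i + 1) :=
          Finset.le_sup (f := fun i => g i + 1) (by rw [Finset.mem_filter]; exact ⟨hl, by omega⟩)
        have h5 := le_max_right c ((B.filter (fun i => i < l + 1)).sup (fun i => g i + 1))
        simp only
        exact lt_of_lt_of_le (by omega) (this.trans h5)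
  · intro h; simp at h

/-- decreasing pass from ordered disjoint ranges -/
theorem pass_dec {ν s : ℕ → ι} {B : Finset ℕ} {c d : ℕ} (hcd : c ≤ d) (f g : ℕ → ℕ)
    (hf : ∀ l ∈ B, c ≤ f l) (hg : ∀ l ∈ B, g l < d) (hfg : ∀ l ∈ B, f l ≤ g l)
    (hocc : ∀ l ∈ B, ∀ j, c ≤ j → j < d → ν j = s l → f l ≤ j ∧ j ≤ g l)
    (hR : ∀ i ∈ B, ∀ j ∈ B, i < j → g j < f i) :
    ∃ x, Pass ν s B c d false x := by
  classical
  refine ⟨fun l => d - ((B.filter (fun i => i < l)).sup (fun i => d - f i)), ?_, ?_, ?_⟩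
  · intro l
    refine ⟨?_, Nat.sub_le _ _⟩
    have : (B.filter (fun i => i < l)).sup (fun i => d - f i) ≤ d - c := by
      apply Finset.sup_le
      intro i hi
      rw [Finset.mem_filter] at hi
      have := hf i hi.1
      omega
    simp only
    omega
  · intro h; simp at h
  · intro _
    refine ⟨?_, ?_⟩
    · intro l l' hl
      have : (B.filter (fun i => i < l)).sup (fun i => d - f i) ≤
          (B.filter (fun i => i < l')).sup (fun i => d - f i) := by
        apply Finset.sup_mono
        intro i hi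
        rw [Finset.mem_filter] at hi ⊢
        exact ⟨hi.1, lt_of_lt_of_le hi.2 hl⟩
      simp only
      omega
    · intro j h1 h2 l hl hj
      obtain ⟨h3, h4⟩ := hocc l hl j h1 h2 hj
      constructor
      · have h5 : d - f l ≤ (B.filter (fun i => i < l + 1)).sup (fun i => d - f i) :=
          Finset.le_sup (f := fun i => d - f i) (by rw [Finset.mem_filter]; exact ⟨hl, by omega⟩)
        have := hf l hl
        have := hg l hl
        have := hfg l hl
        simp only
        omega
      · have h5 : (B.filter (fun i => i < l)).sup (fun i => d - f i) ≤ d - (g l + 1) := by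
          apply Finset.sup_le
          intro i hi
          rw [Finset.mem_filter] at hi
          have := hR i hi.1 l hl hi.2
          omega
        have := hg l hl
        simp only
        omega

theorem pass_triv {ν s : ℕ → ι} {B : Finset ℕ} {c d : ℕ} (hcd : c ≤ d)
    (hocc : ∀ l ∈ B, ∀ j, c ≤ j → j < d → ν j ≠ s l) : Pass ν s B c d true (fun _ => c) := by
  refine ⟨fun _ => ⟨le_rfl, hcd⟩, fun _ => ⟨fun _ _ _ => le_rfl, ?_⟩, by simp⟩
  intro j h1 h2 l hl hj
  exact absurd hj (hocc l hl j h1 h2)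

/-- the bound in the tiling theorem -/
def tb : ℕ → ℕ → ℕ
  | 0, q => q
  | k + 1, q => q + q * (q * (tb k (tb k q) + 1))

/-- exponents in the closed bound for `tb` -/
def te : ℕ → ℕ
  | 0 => 1
  | k + 1 => te k ^ 2 + 2

theorem tb_le (k : ℕ) : ∀ q, tb k q + 1 ≤ (q + 1) ^ te k := by
  induction k with
  | zero => intro q; simp [tb, te]
  | succ k ih =>
    intro q
    have h1 : tb k (tb k q) + 1 ≤ (q + 1) ^ (te k ^ 2) := by
      calc _ ≤ (tb k q + 1) ^ te k := ih _
        _ ≤ ((q + 1) ^ te k) ^ te k := Nat.pow_le_pow_left (ih q) _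
        _ = _ := by rw [← pow_mul, sq]
    have h2 : 1 ≤ (q + 1) ^ (te k ^ 2) := Nat.one_le_pow _ _ (Nat.succ_pos _)
    have h3 : q * (q * (tb k (tb k q) + 1)) ≤ q * (q * (q + 1) ^ (te k ^ 2)) :=
      Nat.mul_le_mul_left _ (Nat.mul_le_mul_left _ h1)
    unfold tb te
    rw [pow_add]
    nlinarith

theorem te_le (k : ℕ) : te k + 1 ≤ 2 ^ 2 ^ k := by
  induction k with
  | zero => simp [te]
  | succ k ih =>
    unfold te
    have h1 : 1 ≤ te k := by
      cases k with
      | zero => simp [te]
      | succ k => unfold te; omega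
    have h2 : 2 ^ 2 ^ (k + 1) = (2 ^ 2 ^ k) ^ 2 := by rw [← pow_mul, pow_succ]
    rw [h2]
    calc te k ^ 2 + 2 + 1 ≤ (te k + 1) ^ 2 := by nlinarith
      _ ≤ _ := Nat.pow_le_pow_left ih _

theorem tb_le' (k q : ℕ) : tb k q ≤ (q + 1) ^ 2 ^ 2 ^ k := by
  have h1 := tb_le k q
  have h2 := te_le k
  have h3 : (q + 1) ^ te k ≤ (q + 1) ^ 2 ^ 2 ^ k :=
    Nat.pow_le_pow_right (Nat.succ_pos _) (by omega)
  omega

/-- **Tiling theorem.** -/
theorem tile (ν s : ℕ → ι) [DecidableEq ι] : ∀ (k q c d : ℕ), c ≤ d → ∀ A : Finset ℕ,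
    tb k q ≤ A.card → (∀ i ∈ A, ∀ j ∈ A, s i = s j → i = j) →
    (∀ l ∈ A, ((Finset.Ico c d).filter (fun j => ν j = s l)).card ≤ k) →
    ∃ B ⊆ A, q ≤ B.card ∧ ∃ t ≤ 2 ^ k, Tiling ν s B c d t := by
  classical
  intro k
  induction k with
  | zero =>
    intro q c d hcd A hA hinj hk
    refine ⟨A, subset_rfl, hA, 1, le_rfl, Tiling.single hcd true _ (pass_triv hcd ?_)⟩
    intro l hl j h1 h2 hj
    have := hk l hl
    rw [Nat.le_zero, Finset.card_eq_zero] at this
    have h3 : j ∈ (Finset.Ico c d).filter (fun j => ν j = s l) := by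
      rw [Finset.mem_filter, Finset.mem_Ico]; exact ⟨⟨h1, h2⟩, hj⟩
    rw [this] at h3
    simp at h3
  | succ k ih =>
    intro q c d hcd A hA hinj hk
    have hpow : 1 ≤ 2 ^ (k + 1) := Nat.one_le_two_pow
    -- letters which do not occur
    set A0 := A.filter (fun l => ∀ j, c ≤ j → j < d → ν j ≠ s l) with hA0
    by_cases h0 : q ≤ A0.card
    · refine ⟨A0, Finset.filter_subset _ _, h0, 1, hpow,
        Tiling.single hcd true _ (pass_triv hcd ?_)⟩
      intro l hl
      rw [hA0, Finset.mem_filter] at hl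
      exact hl.2
    set A1 := A.filter (fun l => ¬ ∀ j, c ≤ j → j < d → ν j ≠ s l) with hA1
    have hcard : A0.card + A1.card = A.card := by
      rw [hA0, hA1, Finset.card_filter_add_card_filter_not]
    have hA1c : q * (q * (tb k (tb k q) + 1)) ≤ A1.card := by
      unfold tb at hA
      omega
    have hA1A : A1 ⊆ A := Finset.filter_subset _ _
    -- first and last occurrences
    have hfg : ∀ l ∈ A1, ∃ f g, c ≤ f ∧ g < d ∧ f ≤ g ∧ ν f = s l ∧ ν g = s l ∧
        ∀ j, c ≤ j → j < d → ν j = s l → f ≤ j ∧ j ≤ g := by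
      intro l hl
      rw [hA1, Finset.mem_filter] at hl
      obtain ⟨_, hl⟩ := hl
      push Not at hl
      obtain ⟨j, h1, h2, h3⟩ := hl
      set O := (Finset.Ico c d).filter (fun j => ν j = s l) with hO
      have hjO : j ∈ O := by rw [hO, Finset.mem_filter, Finset.mem_Ico]; exact ⟨⟨h1, h2⟩, h3⟩
      have hne : O.Nonempty := ⟨j, hjO⟩
      have hm := Finset.mem_filter.mp (O.min'_mem hne)
      have hM := Finset.mem_filter.mp (O.max'_mem hne)
      refine ⟨O.min' hne, O.max' hne, (Finset.mem_Ico.mp hm.1).1, (Finset.mem_Ico.mp hM.1).2,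
        O.min'_le _ (O.max'_mem hne), hm.2, hM.2, ?_⟩
      · intro j' h1' h2' h3'
        have : j' ∈ O := by rw [hO, Finset.mem_filter, Finset.mem_Ico]; exact ⟨⟨h1', h2'⟩, h3'⟩
        exact ⟨O.min'_le _ this, O.le_max' _ this⟩
    choose! f g hf hg hfg' hνf hνg hocc using hfg
    rcases ramsey2 (fun i j => g i < f j) _ q A1 hA1c (by
      intro i _ j hj l _ _ _ h1 h2
      have := hfg' j hj
      omega) with
      ⟨B, hB, hBc, hBR⟩ | ⟨B, hB, hBc, hBR⟩
    · obtain ⟨x, hx⟩ := pass_inc (ν := ν) (s := s) hcd f g (fun l hl => hf l (hB hl))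
        (fun l hl => hg l (hB hl)) (fun l hl => hocc l (hB hl)) hBR
      exact ⟨B, hB.trans hA1A, hBc, 1, hpow, Tiling.single hcd true x hx⟩
    rcases ramsey2 (fun i j => g j < f i) _ q B hBc (by
      intro i _ j hj l _ _ _ h1 h2
      have := hfg' j (hB hj)
      omega) with
      ⟨B', hB', hBc', hBR'⟩ | ⟨B', hB', hBc', hBR'⟩
    · obtain ⟨x, hx⟩ := pass_dec (ν := ν) (s := s) hcd f g (fun l hl => hf l (hB (hB' hl)))
        (fun l hl => hg l (hB (hB' hl))) (fun l hl => hfg' l (hB (hB' hl)))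
        (fun l hl => hocc l (hB (hB' hl))) hBR'
      exact ⟨B', hB'.trans (hB.trans hA1A), hBc', 1, hpow, Tiling.single hcd false x hx⟩
    -- pairwise intersecting
    have hB'A1 : B' ⊆ A1 := hB'.trans hB
    have hne : B'.Nonempty := by
      rw [← Finset.card_pos]; omega
    obtain ⟨l0, hl0, hmax⟩ := Finset.exists_max_image B' f hne
    set z := f l0 with hz
    have hz1 : c ≤ z := hf l0 (hB'A1 hl0)
    have hz2 : z < d := lt_of_le_of_lt (hfg' l0 (hB'A1 hl0)) (hg l0 (hB'A1 hl0))
    set C := B'.erase l0 with hC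
    have hCA1 : C ⊆ A1 := (Finset.erase_subset _ _).trans hB'A1
    have hCc : tb k (tb k q) ≤ C.card := by
      rw [hC, Finset.card_erase_of_mem hl0]; omega
    have hC1 : ∀ l ∈ C, f l < z := by
      intro l hl
      rw [hC, Finset.mem_erase] at hl
      refine lt_of_le_of_ne (hmax l hl.2) ?_
      intro heq
      apply hl.1
      apply hinj l (hA1A (hB'A1 hl.2)) l0 (hA1A (hB'A1 hl0))
      rw [← hνf l (hB'A1 hl.2), ← hνf l0 (hB'A1 hl0), heq]
    have hC2 : ∀ l ∈ C, z ≤ g l := by
      intro l hl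
      rw [hC, Finset.mem_erase] at hl
      rcases lt_or_gt_of_ne hl.1 with h | h
      · have := hBR l (hB' hl.2) l0 (hB' hl0) h
        omega
      · have := hBR' l0 hl0 l hl.2 h
        omega
    -- counts
    have hk1 : ∀ l ∈ C, ((Finset.Ico c z).filter (fun j => ν j = s l)).card ≤ k := by
      intro l hl
      have h1 : (Finset.Ico c z).filter (fun j => ν j = s l) ⊂
          (Finset.Ico c d).filter (fun j => ν j = s l) := by
        rw [Finset.ssubset_iff_of_subset]
        · refine ⟨g l, ?_, ?_⟩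
          · rw [Finset.mem_filter, Finset.mem_Ico]
            exact ⟨⟨hz1.trans (hC2 l hl), hg l (hCA1 hl)⟩, hνg l (hCA1 hl)⟩
          · rw [Finset.mem_filter, Finset.mem_Ico]
            rintro ⟨⟨_, h⟩, _⟩
            have := hC2 l hl
            omega
        · intro j hj
          rw [Finset.mem_filter, Finset.mem_Ico] at hj ⊢
          exact ⟨⟨hj.1.1, by omega⟩, hj.2⟩
      have h2 := Finset.card_lt_card h1
      have h3 := hk l (hA1A (hCA1 hl))
      omega
    have hk2 : ∀ l ∈ C, ((Finset.Ico z d).filter (fun j => ν j = s l)).card ≤ k := by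
      intro l hl
      have h1 : (Finset.Ico z d).filter (fun j => ν j = s l) ⊂
          (Finset.Ico c d).filter (fun j => ν j = s l) := by
        rw [Finset.ssubset_iff_of_subset]
        · refine ⟨f l, ?_, ?_⟩
          · rw [Finset.mem_filter, Finset.mem_Ico]
            exact ⟨⟨hf l (hCA1 hl), (hC1 l hl).trans hz2⟩, hνf l (hCA1 hl)⟩
          · rw [Finset.mem_filter, Finset.mem_Ico]
            rintro ⟨⟨h, _⟩, _⟩
            have := hC1 l hl
            omega
        · intro j hj
          rw [Finset.mem_filter, Finset.mem_Ico] at hj ⊢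
          exact ⟨⟨by omega, hj.1.2⟩, hj.2⟩
      have h2 := Finset.card_lt_card h1
      have h3 := hk l (hA1A (hCA1 hl))
      omega
    obtain ⟨D, hD, hDc, t, ht, hT⟩ := ih (tb k q) c z hz1 C hCc
      (fun i hi j hj => hinj i (hA1A (hCA1 hi)) j (hA1A (hCA1 hj))) hk1
    obtain ⟨E, hE, hEc, t', ht', hT'⟩ := ih q z d hz2.le D hDc
      (fun i hi j hj => hinj i (hA1A (hCA1 (hD hi))) j (hA1A (hCA1 (hD hj))))
      (fun l hl => hk2 l (hD hl))
    refine ⟨E, (hE.trans hD).trans (hCA1.trans hA1A), hEc, t + t', ?_, ?_⟩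
    · have : 2 ^ (k + 1) = 2 ^ k + 2 ^ k := by ring
      omega
    · exact (hT.mono hE).append hT'

/-- a strictly increasing enumeration -/
theorem exists_strictMono (B : Finset ℕ) (q : ℕ) (h : q ≤ B.card) :
    ∃ σ : ℕ → ℕ, StrictMono σ ∧ ∀ l < q, σ l ∈ B := by
  classical
  obtain ⟨B', hB', hc⟩ := Finset.exists_subset_card_eq h
  set emb := B'.orderEmbOfFin hc with hemb
  set m := B'.sup id + 1 with hm
  have hlt : ∀ i : Fin q, emb i < m := by
    intro i
    have : emb i ∈ B' := Finset.orderEmbOfFin_mem _ _ _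
    have := Finset.le_sup (f := id) this
    simp only [id] at this
    omega
  refine ⟨fun l => if h : l < q then emb ⟨l, h⟩ else m + l, ?_, ?_⟩
  · intro l l' hl
    by_cases h1 : l' < q
    · have h2 : l < q := by omega
      simp only [h1, h2, dif_pos]
      exact emb.strictMono (by simpa using hl)
    · by_cases h2 : l < q
      · simp only [h1, h2, dif_pos, dif_neg, not_false_eq_true]
        have := hlt ⟨l, h2⟩
        omega
      · simp only [h1, h2, dif_neg, not_false_eq_true]
        omega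
  · intro l hl
    simp only [hl, dif_pos]
    exact hB' (Finset.orderEmbOfFin_mem _ _ _)

end Pool.Agent.Helper8
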